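import Mathlib

/-! Directed graphs, their spatial embeddings, and intrinsic `n`-linkedness. -/

set_option autoImplicit false

namespace Pool.Agent.N568.Dg

/-- A finite graph in which every edge carries an orientation: the edge `e` points from `src e` to
`tgt e`. Two vertices may be joined by several edges, in particular by two oppositely oriented
ones. -/
structure DirectedGraph where
  /-- the vertices -/
  V : Type
  /-- the edges -/
  E : Type
  finite_V : Finite V
  finite_E : Finite E
  /-- the vertex at which an edge starts -/
  src : E → V
  /-- the vertex at which an edge ends -/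
  tgt : E → V
  src_ne_tgt : ∀ e, src e ≠ tgt e

/-- A spatial embedding: distinct points of `ℝ³` for the vertices, and for every edge `e` an arc
from the point of `src e` to the point of `tgt e`; the arcs meet only at common endpoints. -/
structure SpatialEmbedding (D : DirectedGraph) where
  /-- the points of the vertices -/
  pos : D.V → EuclideanSpace ℝ (Fin 3)
  pos_injective : Function.Injective pos
  /-- the arcs of the edges -/
  arc : ∀ e : D.E, Path (pos (D.src e)) (pos (D.tgt e))
  arc_injective : ∀ e, Function.Injective (arc e)
  /-- an arc contains the point of a vertex only if the vertex is one of its two ends -/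
  arc_vertex : ∀ e t v, arc e t = pos v → v = D.src e ∨ v = D.tgt e
  /-- two different arcs meet only in points of vertices -/
  arc_disjoint : ∀ e e', e ≠ e' → ∀ t t', arc e t = arc e' t' → ∃ v, arc e t = pos v

/-- A consistently oriented cycle `x 0, e 0, x 1, e 1, …, e (k - 1), x k = x 0` with distinct vertices
`x 0, …, x (k - 1)`: for every `i < k` the edge `e i` points from `x i` to `x (i + 1)`. (Only the values
`x i` for `i ≤ k` and `e i` for `i < k` matter.) -/
structure OrientedCycle (D : DirectedGraph) where
  /-- the number of edges -/
  k : ℕ
  k_pos : 0 < k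
  /-- the vertices -/
  x : ℕ → D.V
  /-- the edges -/
  e : ℕ → D.E
  closed : x k = x 0
  src_e : ∀ i < k, D.src (e i) = x i
  tgt_e : ∀ i < k, D.tgt (e i) = x (i + 1)
  distinct : ∀ i < k, ∀ j < k, x i = x j → i = j

/-- The image of a cycle under a spatial embedding, a simple closed curve in `ℝ³`. -/
def OrientedCycle.image {D : DirectedGraph} (C : OrientedCycle D) (f : SpatialEmbedding D) :
    Set (EuclideanSpace ℝ (Fin 3)) :=
  ⋃ i < C.k, Set.range (f.arc (C.e i))

/-- Two cycles have no common vertex. -/
def VertexDisjoint {D : DirectedGraph} (C C' : OrientedCycle D) : Prop :=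
  ∀ i < C.k, ∀ j < C'.k, C.x i ≠ C'.x j

/-- The union of the closed curves `L 0, …, L (n - 1)` is nonsplit: there is no embedded 2-sphere
`S ⊆ ℝ³` (the image of the unit sphere under an injective continuous map `g`), disjoint from all
`L i`, such that some points `a ∈ L i` and `b ∈ L j` lie on different sides of `S`, i.e. in different
components of `ℝ³ \ S`. -/
def Nonsplit {n : ℕ} (L : Fin n → Set (EuclideanSpace ℝ (Fin 3))) : Prop :=
  ¬ ∃ g : Metric.sphere (0 : EuclideanSpace ℝ (Fin 3)) 1 → EuclideanSpace ℝ (Fin 3),
    Continuous g ∧ Function.Injective g ∧ (∀ i, Disjoint (L i) (Set.range g)) ∧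
    ∃ i j, ∃ a ∈ L i, ∃ b ∈ L j,
      connectedComponentIn (Set.range g)ᶜ a ≠ connectedComponentIn (Set.range g)ᶜ b

/-- The digraph `D` is intrinsically `n`-linked: for every spatial embedding of `D`, some `n`
pairwise vertex-disjoint consistently oriented cycles have images forming a nonsplit link. -/
def IntrinsicallyLinked (n : ℕ) (D : DirectedGraph) : Prop :=
  ∀ f : SpatialEmbedding D, ∃ C : Fin n → OrientedCycle D,
    (∀ i j, i ≠ j → VertexDisjoint (C i) (C j)) ∧ Nonsplit fun i => (C i).image f

end Pool.Agent.N568.Dg
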