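import Mathlib
import Pool.Agent.N568.Dg.Defs
import Pool.Agent.N568.Lk.Sep

set_option autoImplicit false
set_option maxHeartbeats 1000000

namespace Pool.Agent.N568.Dg

open Pool.Agent.Helper683.Lk Pool.Agent.N568.Lk Topology Filter

variable {D : DirectedGraph} (f : SpatialEmbedding D)

/-- an infinite directed walk -/
structure Wk (D : DirectedGraph) where
  x : ℕ → D.V
  e : ℕ → D.E
  src_e : ∀ i, D.src (e i) = x i
  tgt_e : ∀ i, D.tgt (e i) = x (i + 1)

/-- the periodic walk along a cycle -/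
def OrientedCycle.wk (C : OrientedCycle D) : Wk D where
  x := fun i => C.x (i % C.k)
  e := fun i => C.e (i % C.k)
  src_e := fun i => C.src_e _ (Nat.mod_lt _ C.k_pos)
  tgt_e := fun i => by
    rw [C.tgt_e _ (Nat.mod_lt _ C.k_pos)]
    have h1 := Nat.mod_lt i C.k_pos
    by_cases h : i % C.k + 1 = C.k
    · have h2 : (i + 1) % C.k = 0 := by
        rw [← Nat.mod_add_mod, h, Nat.mod_self]
      rw [h, C.closed, h2]
    · have h2 : (i + 1) % C.k = i % C.k + 1 := by
        rw [← Nat.mod_add_mod, Nat.mod_eq_of_lt (by omega)]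
      rw [h2]

variable (w : Wk D)

/-- the arc of the `i`-th edge -/
noncomputable def pth (i : ℕ) : Path (f.pos (w.x i)) (f.pos (w.x (i + 1))) :=
  (f.arc (w.e i)).cast (by rw [w.src_e]) (by rw [w.tgt_e])

theorem pth_extend (i : ℕ) (t : ℝ) : (pth f w i).extend t = (f.arc (w.e i)).extend t := rfl

theorem pth_inscribed (i M j : ℕ) : inscribed (pth f w i) M j = inscribed (f.arc (w.e i)) M j := rfl

theorem pth_mod {i M : ℕ} {ρ : ℝ} (h : Mod (f.arc (w.e i)) M ρ) : Mod (pth f w i) M ρ := h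

/-- the concatenation of the first `n + 1` arcs -/
noncomputable def gam : (n : ℕ) → Path (f.pos (w.x 0)) (f.pos (w.x (n + 1)))
  | 0 => pth f w 0
  | n + 1 => (gam n).trans (pth f w (n + 1))

theorem gam_mem : ∀ (n : ℕ) (t : ℝ), ∃ i ≤ n, ∃ s : ℝ, (gam f w n).extend t = (f.arc (w.e i)).extend s
  | 0, t => ⟨0, le_rfl, t, rfl⟩
  | n + 1, t => by
    show ∃ i ≤ n + 1, ∃ s : ℝ, ((gam f w n).trans (pth f w (n + 1))).extend t = (f.arc (w.e i)).extend s
    rcases le_total t (1 / 2) with ht | ht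
    · rw [Path.extend_trans_of_le_half _ _ ht]
      obtain ⟨i, hi, s, hs⟩ := gam_mem n (2 * t)
      exact ⟨i, by omega, s, hs⟩
    · rw [Path.extend_trans_of_half_le _ _ ht]
      exact ⟨n + 1, le_rfl, 2 * t - 1, rfl⟩

theorem range_gam : ∀ n : ℕ, Set.range (gam f w n) = ⋃ i ≤ n, Set.range (f.arc (w.e i))
  | 0 => by
    have : Set.range (gam f w 0) = Set.range (f.arc (w.e 0)) := rfl
    rw [this]
    ext p
    simp
  | n + 1 => by
    show Set.range ((gam f w n).trans (pth f w (n + 1))) = _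
    rw [Path.trans_range, range_gam n]
    have : Set.range (pth f w (n + 1)) = Set.range (f.arc (w.e (n + 1))) := rfl
    rw [this]
    ext p
    simp only [Set.mem_union, Set.mem_iUnion, exists_prop]
    constructor
    · rintro (⟨i, hi, h⟩ | h)
      · exact ⟨i, by omega, h⟩
      · exact ⟨n + 1, le_rfl, h⟩
    · rintro ⟨i, hi, h⟩
      rcases Nat.lt_or_ge i (n + 1) with h' | h'
      · exact Or.inl ⟨i, by omega, h⟩
      · right
        have : i = n + 1 := by omega
        subst this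
        exact h

/-- the sampled points -/
noncomputable def smp (M : ℕ) (i : ℕ) : R3 := inscribed (f.arc (w.e (i / M))) M (i % M)

theorem smp_block {M : ℕ} (hM : 0 < M) (n : ℕ) {j : ℕ} (hj : j ≤ M) :
    smp f w M (M * n + j) = inscribed (f.arc (w.e n)) M j := by
  unfold smp
  rcases hj.lt_or_eq with h | h
  · rw [Nat.mul_add_div hM, Nat.div_eq_of_lt h, Nat.mul_add_mod, Nat.mod_eq_of_lt h, add_zero]
  · subst h
    rw [Nat.mul_add_div hM, Nat.div_self hM, Nat.mul_add_mod, Nat.mod_self, insc_zero, insc_last _ hM,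
      w.src_e, w.tgt_e]

theorem sub_congr {x y : R3} {γ : Path x y} {K m : ℕ} {g g' : ℕ → R3} {ρ : ℝ} (h : Sub γ K g m ρ)
    (hg : ∀ i ≤ m, g i = g' i) : Sub γ K g' m ρ := by
  obtain ⟨s, h1, h2⟩ := h
  exact ⟨s, h1, fun i hi => (h2 i hi).trans (hg i hi)⟩

theorem gam_sub {M : ℕ} (hM : 0 < M) {ρ : ℝ} (hmod : ∀ e, Mod (f.arc e) M ρ) :
    ∀ (n c : ℕ), 0 < c → Sub (gam f w n) (c * 2 ^ n * M) (smp f w M) (M * (n + 1)) ρ
  | 0, c, hc => by
    have := sub_unif (pth_mod f w (hmod (w.e 0))) (c := c) hc hM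
    have e0 : c * 2 ^ 0 * M = c * M := by ring
    have e1 : M * (0 + 1) = M := by ring
    rw [e0, e1]
    show Sub (pth f w 0) (c * M) (smp f w M) M ρ
    refine sub_congr this ?_
    intro i hi
    have h := smp_block f w hM 0 (j := i) (by simpa using hi)
    rw [mul_zero, zero_add] at h
    rw [h]
    rfl
  | n + 1, c, hc => by
    have h1 := gam_sub hM hmod n c hc
    have h2 := sub_unif (pth_mod f w (hmod (w.e (n + 1)))) (c := c * 2 ^ n) (by positivity) hM
    have h3 := sub_trans (K := c * 2 ^ n * M) (by positivity) h1 h2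
    have e1 : c * 2 ^ (n + 1) * M = 2 * (c * 2 ^ n * M) := by ring
    have e2 : M * (n + 1 + 1) = M * (n + 1) + M := by ring
    rw [e1, e2]
    refine sub_congr h3 ?_
    intro i hi
    try simp only
    split_ifs with h
    · rfl
    · have h4 := smp_block f w hM (n + 1) (j := i - M * (n + 1)) (by omega)
      rw [show M * (n + 1) + (i - M * (n + 1)) = i by omega] at h4
      rw [h4]
      rfl

theorem smp_zero {M : ℕ} (hM : 0 < M) (n : ℕ) : smp f w M (M * n) = f.pos (w.x n) := by
  have := smp_block f w hM n (j := 0) (Nat.zero_le _)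
  rw [add_zero, insc_zero, w.src_e] at this
  exact this

/-- sums over the sampled edges -/
theorem smp_sum {M : ℕ} (hM : 0 < M) (F : R3 → R3 → ℤ) : ∀ n : ℕ,
    ∑ i ∈ Finset.range (M * n), F (smp f w M i) (smp f w M (i + 1)) =
      ∑ k ∈ Finset.range n, ∑ i ∈ Finset.range M,
        F (inscribed (f.arc (w.e k)) M i) (inscribed (f.arc (w.e k)) M (i + 1))
  | 0 => by simp
  | n + 1 => by
    rw [show M * (n + 1) = M * n + M by ring, Finset.sum_range_add, smp_sum hM F n,
      Finset.sum_range_succ _ n]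
    congr 1
    apply Finset.sum_congr rfl
    intro i hi
    rw [Finset.mem_range] at hi
    rw [smp_block f w hM n hi.le, add_assoc, smp_block f w hM n (j := i + 1) hi]

theorem smp_edge {M : ℕ} (hM : 0 < M) {n i : ℕ} (hi : i < M * n) : ∃ k < n, ∃ j < M,
    smp f w M i = inscribed (f.arc (w.e k)) M j ∧
    smp f w M (i + 1) = inscribed (f.arc (w.e k)) M (j + 1) := by
  refine ⟨i / M, ?_, i % M, Nat.mod_lt _ hM, rfl, ?_⟩
  · rw [Nat.div_lt_iff_lt_mul hM, mul_comm]; exact hi
  · have := smp_block f w hM (i / M) (j := i % M + 1) (Nat.mod_lt _ hM)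
    rwa [← add_assoc, Nat.div_add_mod] at this

end Pool.Agent.N568.Dg
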