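import Mathlib
import Pool.Agent.N568.Dg.Walk

set_option autoImplicit false
set_option maxHeartbeats 1000000

namespace Pool.Agent.N568.Dg

open Pool.Agent.Helper683.Lk Pool.Agent.N568.Lk Topology Filter

variable {D : DirectedGraph}

/-- two edges without common ends -/
def Apart (e e' : D.E) : Prop :=
  D.src e ≠ D.src e' ∧ D.src e ≠ D.tgt e' ∧ D.tgt e ≠ D.src e' ∧ D.tgt e ≠ D.tgt e'

theorem arcs_ne (f : SpatialEmbedding D) {e e' : D.E} (h : Apart e e') (s t : unitInterval) :
    f.arc e s ≠ f.arc e' t := by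
  intro he
  have hne : e ≠ e' := fun h' => h.1 (by rw [h'])
  obtain ⟨v, hv⟩ := f.arc_disjoint e e' hne s t he
  obtain ⟨h1, h2, h3, h4⟩ := h
  rcases f.arc_vertex e s v hv with r1 | r1 <;>
    rcases f.arc_vertex e' t v (he ▸ hv) with r2 | r2 <;> rw [r1] at r2
  · exact h1 r2
  · exact h2 r2
  · exact h3 r2
  · exact h4 r2

/-- scale, subdivision and direction -/
structure Scale (f : SpatialEmbedding D) where
  ρ : ℝ
  hρ : 0 < ρ
  far : ∀ e e' : D.E, Apart e e' → ∀ s t : ℝ,
    2 * ρ ≤ dist ((f.arc e).extend s) ((f.arc e').extend t)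
  M : ℕ
  hM : 0 < M
  mod : ∀ e, Mod (f.arc e) M ρ
  v : R3
  hv : v ≠ 0
  reg : ∀ e e', Apart e e' → ∀ i < M, ∀ j < M,
    RegPair v (inscribed (f.arc e) M i) (inscribed (f.arc e) M (i + 1))
      (inscribed (f.arc e') M j) (inscribed (f.arc e') M (j + 1))
  dis : ∀ e e', Apart e e' → ∀ i < M, ∀ j < M,
    Disjoint (segment ℝ (inscribed (f.arc e) M i) (inscribed (f.arc e) M (i + 1)))
      (segment ℝ (inscribed (f.arc e') M j) (inscribed (f.arc e') M (j + 1)))

theorem exists_scale (f : SpatialEmbedding D) : Nonempty (Scale f) := by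
  classical
  have := D.finite_E
  have := Fintype.ofFinite D.E
  have hf : ∀ᶠ ρ : ℝ in 𝓝[>] 0, ∀ q : D.E × D.E, Apart q.1 q.2 →
      ∀ s t : ℝ, 2 * ρ ≤ dist ((f.arc q.1).extend s) ((f.arc q.2).extend t) := by
    rw [Filter.eventually_all]
    rintro ⟨e, e'⟩
    by_cases hh : Apart e e'
    · filter_upwards [ev_far (f.arc e) (f.arc e') (arcs_ne f hh)] with ρ hρ _
      exact hρ
    · exact Filter.Eventually.of_forall fun ρ h => absurd h hh
  obtain ⟨ρ, hfar, hρ⟩ := (hf.and self_mem_nhdsWithin).exists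
  have hm : ∀ᶠ M : ℕ in atTop, ∀ e : D.E, Mod (f.arc e) M ρ := by
    rw [Filter.eventually_all]
    intro e
    exact ev_Mod (f.arc e) hρ
  obtain ⟨M, hmod, hM⟩ := (hm.and (Filter.eventually_gt_atTop 0)).exists
  have hdis : ∀ e e' : D.E, Apart e e' → ∀ i < M, ∀ j < M,
      Disjoint (segment ℝ (inscribed (f.arc e) M i) (inscribed (f.arc e) M (i + 1)))
        (segment ℝ (inscribed (f.arc e') M j) (inscribed (f.arc e') M (j + 1))) := by
    intro e e' h i _ j _
    exact seg_disjoint ((hmod e).step hM le_rfl i) ((hmod e').step hM le_rfl j)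
      (hfar (e, e') h _ _)
  obtain ⟨v, hv, hreg⟩ := exists_dir
    (((Finset.univ : Finset (D.E × D.E)).filter fun q => Apart q.1 q.2) ×ˢ
      (Finset.range M ×ˢ Finset.range M))
    (fun t => inscribed (f.arc t.1.1) M t.2.1) (fun t => inscribed (f.arc t.1.1) M (t.2.1 + 1))
    (fun t => inscribed (f.arc t.1.2) M t.2.2) (fun t => inscribed (f.arc t.1.2) M (t.2.2 + 1)) (by
      rintro ⟨⟨e, e'⟩, i, j⟩ ht
      simp only [Finset.mem_product, Finset.mem_filter, Finset.mem_univ, true_and,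
        Finset.mem_range] at ht
      exact hdis e e' ht.1 i ht.2.1 j ht.2.2)
  refine ⟨⟨ρ, hρ, fun e e' h => hfar (e, e') h, M, hM, hmod, v, hv, ?_, hdis⟩⟩
  intro e e' h i hi j hj
  apply hreg ((e, e'), i, j)
  simp only [Finset.mem_product, Finset.mem_filter, Finset.mem_univ, true_and, Finset.mem_range]
  exact ⟨h, hi, hj⟩

variable {f : SpatialEmbedding D} (S : Scale f)

/-- the pairing of two edges -/
noncomputable def T (e e' : D.E) : ℤ :=
  crossSum S.v S.M (inscribed (f.arc e) S.M) S.M (inscribed (f.arc e') S.M)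

/-- the closed curve of a cycle -/
noncomputable def OrientedCycle.curve (C : OrientedCycle D) (f : SpatialEmbedding D) :
    Path (f.pos (C.wk.x 0)) (f.pos (C.wk.x 0)) :=
  (gam f C.wk (C.k - 1)).cast rfl (by
    have := C.k_pos
    have h : C.wk.x (C.k - 1 + 1) = C.wk.x 0 := by
      show C.x ((C.k - 1 + 1) % C.k) = C.x (0 % C.k)
      rw [Nat.sub_add_cancel this, Nat.mod_self, Nat.zero_mod]
    rw [h])

theorem range_curve (C : OrientedCycle D) (f : SpatialEmbedding D) :
    Set.range (C.curve f) = C.image f := by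
  have h0 : Set.range (C.curve f) = Set.range (gam f C.wk (C.k - 1)) := rfl
  rw [h0, range_gam]
  have hk := C.k_pos
  ext p
  simp only [OrientedCycle.image, Set.mem_iUnion, exists_prop]
  constructor
  · rintro ⟨i, hi, h⟩
    refine ⟨i, by omega, ?_⟩
    have : C.wk.e i = C.e i := by show C.e (i % C.k) = _; rw [Nat.mod_eq_of_lt (by omega)]
    rwa [this] at h
  · rintro ⟨i, hi, h⟩
    refine ⟨i, by omega, ?_⟩
    have : C.wk.e i = C.e i := by show C.e (i % C.k) = _; rw [Nat.mod_eq_of_lt hi]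
    rwa [this]

theorem VertexDisjoint.apart {C C' : OrientedCycle D} (h : VertexDisjoint C C') (i j : ℕ) :
    Apart (C.wk.e i) (C'.wk.e j) := by
  have hk := C.k_pos
  have hk' := C'.k_pos
  have g : ∀ i j, C.wk.x i ≠ C'.wk.x j := fun i j =>
    h (i % C.k) (Nat.mod_lt _ hk) (j % C'.k) (Nat.mod_lt _ hk')
  unfold Apart
  rw [C.wk.src_e, C.wk.tgt_e, C'.wk.src_e, C'.wk.tgt_e]
  exact ⟨g _ _, g _ _, g _ _, g _ _⟩

/-- the linking number of two disjoint cycles -/
theorem isLk {C C' : OrientedCycle D} (h : VertexDisjoint C C') :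
    IsLinkingNumber (C.curve f) (C'.curve f)
      (∑ i ∈ Finset.range C.k, ∑ j ∈ Finset.range C'.k, T S (C.e i) (C'.e j)) := by
  have hM := S.hM
  have hk := C.k_pos
  have hk' := C'.k_pos
  have sp : ∀ i < S.M * C.k, ∀ j < S.M * C'.k,
      RegPair S.v (smp f C.wk S.M i) (smp f C.wk S.M (i + 1)) (smp f C'.wk S.M j)
        (smp f C'.wk S.M (j + 1)) := by
    intro i hi j hj
    obtain ⟨a, _, a', ha', e1, e2⟩ := smp_edge f C.wk hM hi
    obtain ⟨b, _, b', hb', e3, e4⟩ := smp_edge f C'.wk hM hj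
    rw [e1, e2, e3, e4]
    exact S.reg _ _ (h.apart a b) _ ha' _ hb'
  have key : IsLinkingNumber (C.curve f) (C'.curve f)
      (crossSum S.v (S.M * C.k) (smp f C.wk S.M) (S.M * C'.k) (smp f C'.wk S.M)) := by
    refine isLk_of (k := 2 ^ (C.k - 1) * S.M) (k' := 2 ^ (C'.k - 1) * S.M) S.hρ ?_ ?_ ?_ ?_ ?_ ?_
    · intro s t
      obtain ⟨i, _, s', hs⟩ := gam_mem f C.wk (C.k - 1) s
      obtain ⟨j, _, t', ht⟩ := gam_mem f C'.wk (C'.k - 1) t
      have e1 : (C.curve f).extend s = (gam f C.wk (C.k - 1)).extend s := rfl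
      have e2 : (C'.curve f).extend t = (gam f C'.wk (C'.k - 1)).extend t := rfl
      rw [e1, e2, hs, ht]
      exact S.far _ _ (h.apart i j) s' t'
    · positivity
    · positivity
    · intro c hc
      have := gam_sub f C.wk hM S.mod (C.k - 1) c hc
      have e : S.M * C.k = S.M * (C.k - 1 + 1) := by rw [Nat.sub_add_cancel hk]
      rw [e, ← mul_assoc]
      exact this
    · intro c hc
      have := gam_sub f C'.wk hM S.mod (C'.k - 1) c hc
      have e : S.M * C'.k = S.M * (C'.k - 1 + 1) := by rw [Nat.sub_add_cancel hk']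
      rw [e, ← mul_assoc]
      exact this
    · exact regular_of S.hv (by positivity) (by positivity) sp
  have e : crossSum S.v (S.M * C.k) (smp f C.wk S.M) (S.M * C'.k) (smp f C'.wk S.M) =
      ∑ i ∈ Finset.range C.k, ∑ j ∈ Finset.range C'.k, T S (C.e i) (C'.e j) := by
    unfold crossSum
    rw [smp_sum f C.wk hM (fun z z' => ∑ j ∈ Finset.range (S.M * C'.k),
      crossSign S.v z z' (smp f C'.wk S.M j) (smp f C'.wk S.M (j + 1)))]
    apply Finset.sum_congr rfl
    intro i hi
    rw [Finset.mem_range] at hi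
    rw [Finset.sum_congr rfl fun a _ => smp_sum f C'.wk hM (fun z z' => crossSign S.v _ _ z z') C'.k,
      Finset.sum_comm]
    apply Finset.sum_congr rfl
    intro j hj
    rw [Finset.mem_range] at hj
    have e1 : C.wk.e i = C.e i := by show C.e (i % C.k) = _; rw [Nat.mod_eq_of_lt hi]
    have e2 : C'.wk.e j = C'.e j := by show C'.e (j % C'.k) = _; rw [Nat.mod_eq_of_lt hj]
    rw [e1, e2]
    rfl
  rw [← e]
  exact key

end Pool.Agent.N568.Dg
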