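import Mathlib
import Pool.Agent.N568.Dg.Scale
import Pool.Agent.Helper683.Lk.K6P

set_option autoImplicit false
set_option maxHeartbeats 1000000

namespace Pool.Agent.N568.Dg

open Pool.Agent.Helper683.Lk Pool.Agent.N568.Lk Topology Filter

/-- the complete symmetric digraph on a finite vertex set -/
def complete (V : Type) [Finite V] : DirectedGraph where
  V := V
  E := {p : V × V // p.1 ≠ p.2}
  finite_V := inferInstance
  finite_E := inferInstance
  src := fun e => e.1.1
  tgt := fun e => e.1.2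
  src_ne_tgt := fun e => e.2

section
variable {V : Type}

/-- the sum of `ψ` along the path through the vertices of the list, ending in `z` -/
def ls {A : Type*} [AddMonoid A] (ψ : V → V → A) (z : V) : List V → A
  | [] => 0
  | [a] => ψ a z
  | a :: b :: l => ψ a b + ls ψ z (b :: l)

theorem ls_append {A : Type*} [AddMonoid A] (ψ : V → V → A) (z : V) : ∀ (l : List V) (b : V)
    (l' : List V), ls ψ z (l ++ b :: l') = ls ψ b l + ls ψ z (b :: l')
  | [], b, l' => by simp [ls]
  | [a], b, l' => by simp [ls]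
  | a :: a' :: l, b, l' => by
    have := ls_append ψ z (a' :: l) b l'
    simp only [List.cons_append, ls] at this ⊢
    rw [this, add_assoc]

theorem pos2 {n : ℕ} (h : 2 ≤ n) : 0 < n := by omega

/-- the `i`-th vertex of a periodic list -/
def cyc (l : List V) (h : 0 < l.length) (i : ℕ) : V := l[i % l.length]'(Nat.mod_lt _ h)

theorem cyc_ne {l : List V} (hn : l.Nodup) (h : 2 ≤ l.length) (i : ℕ) :
    cyc l (pos2 h) i ≠ cyc l (pos2 h) (i + 1) := by
  unfold cyc
  intro he
  rw [List.Nodup.getElem_inj_iff hn] at he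
  have h1 := Nat.mod_lt i (show 0 < l.length by omega)
  rcases Nat.lt_or_ge (i % l.length + 1) l.length with h2 | h2
  · rw [← Nat.mod_add_mod i, Nat.mod_eq_of_lt h2] at he
    omega
  · rw [← Nat.mod_add_mod i, show i % l.length + 1 = l.length by omega, Nat.mod_self] at he
    omega

theorem cyc_closed {l : List V} (h : 0 < l.length) : cyc l h l.length = cyc l h 0 := by
  unfold cyc
  have : l.length % l.length = 0 % l.length := by simp
  simp only [this]

theorem cyc_inj {l : List V} (hn : l.Nodup) (h : 0 < l.length) {i j : ℕ} (hi : i < l.length)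
    (hj : j < l.length) (he : cyc l h i = cyc l h j) : i = j := by
  unfold cyc at he
  rw [List.Nodup.getElem_inj_iff hn, Nat.mod_eq_of_lt hi, Nat.mod_eq_of_lt hj] at he
  exact he

variable [Finite V]

/-- the cycle through the vertices of a list -/
def ofList (l : List V) (hn : l.Nodup) (h : 2 ≤ l.length) : OrientedCycle (complete V) where
  k := l.length
  k_pos := lt_of_lt_of_le (by norm_num) h
  x := cyc l (pos2 h)
  e := fun i => ⟨(cyc l (pos2 h) i, cyc l (pos2 h) (i + 1)), cyc_ne hn h i⟩
  closed := cyc_closed (pos2 h)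
  src_e := fun _ _ => rfl
  tgt_e := fun _ _ => rfl
  distinct := fun _ hi _ hj he => cyc_inj hn (pos2 h) hi hj he

theorem mem_ofList {l : List V} (hn : l.Nodup) (h : 2 ≤ l.length) (i : ℕ) :
    (ofList l hn h).x i ∈ l := by
  show cyc l (pos2 h) i ∈ l
  unfold cyc
  exact List.getElem_mem _

omit [Finite V] in
theorem ls_sum {A : Type*} [AddCommMonoid A] (ψ : V → V → A) (z : V) : ∀ (l : List V),
    ls ψ z l = ∑ i ∈ Finset.range l.length, ψ ((l ++ [z]).getD i z) ((l ++ [z]).getD (i + 1) z)
  | [] => by simp [ls]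
  | [a] => by simp [ls]
  | a :: b :: l => by
    have := ls_sum ψ z (b :: l)
    rw [ls, this, List.length_cons (a := a), Finset.sum_range_succ', add_comm]
    rfl

theorem ofList_sum {A : Type*} [AddCommMonoid A] (ψ : V → V → A) {z : V} {l' : List V}
    (hn : (z :: l').Nodup) (h : 2 ≤ (z :: l').length) :
    ∑ i ∈ Finset.range (ofList (z :: l') hn h).k,
      ψ ((ofList (z :: l') hn h).x i) ((ofList (z :: l') hn h).x (i + 1)) = ls ψ z (z :: l') := by
  rw [ls_sum]
  apply Finset.sum_congr rfl
  intro i hi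
  have hi' : i < (z :: l').length := Finset.mem_range.mp hi
  have h0 : ∀ j ≤ (z :: l').length, (ofList (z :: l') hn h).x j = ((z :: l') ++ [z]).getD j z := by
    intro j hj
    show cyc (z :: l') (pos2 h) j = _
    unfold cyc
    rcases hj.lt_or_eq with h' | h'
    · simp only [Nat.mod_eq_of_lt h']
      rw [List.getD_eq_getElem _ _ (by simp at h' ⊢; omega), List.getElem_append_left h']
    · subst h'
      simp only [Nat.mod_self]
      rw [List.getD_eq_getElem _ _ (by simp), List.getElem_append_right le_rfl]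
      simp
  rw [h0 i hi'.le, h0 (i + 1) hi']

/-- sampled points of the arc from `a` to `b` -/
noncomputable def pt [DecidableEq V] (f : SpatialEmbedding (complete V)) (M : ℕ) (a b : V) (i : ℕ) : R3 :=
  if h : a ≠ b then inscribed (f.arc ⟨(a, b), h⟩) M i else f.pos a

theorem pt_ne [DecidableEq V] (f : SpatialEmbedding (complete V)) (M : ℕ) {a b : V} (h : a ≠ b) :
    pt f M a b = inscribed (f.arc ⟨(a, b), h⟩) M := by
  funext i; unfold pt; rw [dif_pos h]

variable [DecidableEq V] {f : SpatialEmbedding (complete V)} (S : Scale f)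

/-- the pairing -/
noncomputable def tt (a b x y : V) : ℤ := crossSum S.v S.M (pt f S.M a b) S.M (pt f S.M x y)

theorem T_tt (e e' : (complete V).E) : T S e e' = tt S e.1.1 e.1.2 e'.1.1 e'.1.2 := by
  unfold T tt
  rw [pt_ne f S.M e.2, pt_ne f S.M e'.2]
  rfl

/-- the parity theorem of Conway, Gordon and Sachs -/
theorem k6 (l : Fin 6 → V) (hl : Function.Injective l) :
    ten (fun a b x y => ((tt S (l a) (l b) (l x) (l y) : ℤ) : ZMod 2)) = 1 := by
  have hM := S.hM
  have hap : ∀ a b x y : Fin 6, ∀ h1 : a ≠ b, ∀ h2 : x ≠ y, a ≠ x → a ≠ y → b ≠ x → b ≠ y →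
      Apart (D := complete V) ⟨(l a, l b), hl.ne h1⟩ ⟨(l x, l y), hl.ne h2⟩ := by
    intro a b x y _ _ h3 h4 h5 h6
    exact ⟨hl.ne h3, hl.ne h4, hl.ne h5, hl.ne h6⟩
  exact k6_poly (fun i => f.pos (l i)) (fun a b => pt f S.M (l a) (l b)) S.M hM
    (by
      intro a b hab
      rw [pt_ne f S.M (hl.ne hab.ne), insc_zero]
      rfl)
    (by
      intro a b hab
      rw [pt_ne f S.M (hl.ne hab.ne), insc_last _ hM]
      rfl)
    S.v S.hv
    (by
      intro a b x y h1 h2 h3 h4 h5 h6 i hi j hj
      rw [pt_ne f S.M (hl.ne h1.ne), pt_ne f S.M (hl.ne h2.ne)]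
      exact S.reg _ _ (hap a b x y h1.ne h2.ne h3 h4 h5 h6) i hi j hj)
    (by
      intro a b x y h1 h2 h3 h4 h5 h6 i hi j hj
      rw [pt_ne f S.M (hl.ne h1.ne), pt_ne f S.M (hl.ne h2.ne)]
      exact S.dis _ _ (hap a b x y h1.ne h2.ne h3 h4 h5 h6) i hi j hj)

end

section
variable {R : Type*} [AddCommGroup R]

/-- the sum over the pairs of edges of two triangles -/
def nine (t : Fin 6 → Fin 6 → Fin 6 → Fin 6 → R) (a b c x y z : Fin 6) : R :=
  t a b x y + t a b y z + t a b x z + t b c x y + t b c y z + t b c x z +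
    t a c x y + t a c y z + t a c x z

theorem exists_nine {t : Fin 6 → Fin 6 → Fin 6 → Fin 6 → ZMod 2} (h : ten t = 1) :
    ∃ a b c x y z : Fin 6, [a, b, c, x, y, z].Nodup ∧ nine t a b c x y z ≠ 0 := by
  by_contra hcon
  push Not at hcon
  have h1 := hcon 0 1 2 3 4 5 (by decide)
  have h2 := hcon 0 1 3 2 4 5 (by decide)
  have h3 := hcon 0 1 4 2 3 5 (by decide)
  have h4 := hcon 0 1 5 2 3 4 (by decide)
  have h5 := hcon 0 2 3 1 4 5 (by decide)
  have h6 := hcon 0 2 4 1 3 5 (by decide)
  have h7 := hcon 0 2 5 1 3 4 (by decide)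
  have h8 := hcon 0 3 4 1 2 5 (by decide)
  have h9 := hcon 0 3 5 1 2 4 (by decide)
  have h10 := hcon 0 4 5 1 2 3 (by decide)
  have h0 : (0 : ZMod 2) = 1 := by
    rw [← h]
    unfold nine at h1 h2 h3 h4 h5 h6 h7 h8 h9 h10
    unfold ten
    linear_combination -(h1 + h2 + h3 + h4 + h5 + h6 + h7 + h8 + h9 + h10)
  exact absurd h0 (by decide)

end

/-- an odd pair of triangles gives an odd pair of directed cycles -/
theorem directed {t : Fin 6 → Fin 6 → Fin 6 → Fin 6 → ZMod 2} {a b c x y z : Fin 6}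
    (h : nine t a b c x y z ≠ 0) :
    (t a b x y + t b c x y + t c a x y) + (t a b y z + t b c y z + t c a y z) +
      (t a b z x + t b c z x + t c a z x) ≠ 0 ∨
    (t a c x y + t c a x y) + (t a c y z + t c a y z) + (t a c z x + t c a z x) ≠ 0 ∨
    (t a b x z + t b c x z + t c a x z) + (t a b z x + t b c z x + t c a z x) ≠ 0 ∨
    (t a c x z + t c a x z) + (t a c z x + t c a z x) ≠ 0 := by
  by_contra hcon
  push Not at hcon
  obtain ⟨h1, h2, h3, h4⟩ := hcon
  apply h
  have two : (2 : ZMod 2) = 0 := rfl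
  unfold nine
  linear_combination h1 + h2 + h3 + h4 + (- t c a x y - t c a y z - t a b z x - t b c z x
    - 2 * t c a z x - t a c z x - t c a x z) * two

end Pool.Agent.N568.Dg
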