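import Mathlib
import Pool.Agent.N568.Dg.Defs

set_option autoImplicit false
set_option maxHeartbeats 1000000

namespace Pool.Agent.N568.Dg

abbrev E3 := EuclideanSpace ℝ (Fin 3)

/-- the moment curve -/
noncomputable def mc (t : ℝ) : E3 := !₂[t, t ^ 2, t ^ 3]

/-- the point at the parameter `s` of the segment between two points of the moment curve -/
noncomputable def sg (a b s : ℝ) : E3 := AffineMap.lineMap (mc a) (mc b) s

theorem sg_zero (a b : ℝ) : sg a b 0 = mc a := by simp [sg]
theorem sg_one (a b : ℝ) : sg a b 1 = mc b := by simp [sg]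

/-- evaluation of the cubic polynomial with the coefficients `α, β, γ, δ` -/
def Q (α β γ δ : ℝ) (p : E3) : ℝ := α + β * p 0 + γ * p 1 + δ * p 2

theorem Q_sg (α β γ δ a b s : ℝ) : Q α β γ δ (sg a b s) =
    (1 - s) * (α + β * a + γ * a ^ 2 + δ * a ^ 3) + s * (α + β * b + γ * b ^ 2 + δ * b ^ 3) := by
  simp only [Q, sg, AffineMap.lineMap_apply_module, mc, PiLp.add_apply, PiLp.smul_apply, smul_eq_mul]
  simp
  ring

theorem Q_mc (α β γ δ a : ℝ) : Q α β γ δ (mc a) = α + β * a + γ * a ^ 2 + δ * a ^ 3 := by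
  have := Q_sg α β γ δ a a 0
  rw [sg_zero] at this
  rw [this]; ring

/-- two chords with four different ends are disjoint -/
theorem four {a b c d s u : ℝ} (hab : a ≠ b) (hac : a ≠ c) (had : a ≠ d) (hbc : b ≠ c) (hbd : b ≠ d)
    (h : sg a b s = sg c d u) : False := by
  have h1 := congrArg (Q (-(a * c * d)) (a * c + a * d + c * d) (-(a + c + d)) 1) h
  have h2 := congrArg (Q (-(b * c * d)) (b * c + b * d + c * d) (-(b + c + d)) 1) h
  rw [Q_sg, Q_sg] at h1 h2
  have e1 : s * ((b - a) * (b - c) * (b - d)) = 0 := by linear_combination h1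
  have e2 : (1 - s) * ((a - b) * (a - c) * (a - d)) = 0 := by linear_combination h2
  have n1 : (b - a) * (b - c) * (b - d) ≠ 0 :=
    mul_ne_zero (mul_ne_zero (sub_ne_zero.mpr hab.symm) (sub_ne_zero.mpr hbc)) (sub_ne_zero.mpr hbd)
  have n2 : (a - b) * (a - c) * (a - d) ≠ 0 :=
    mul_ne_zero (mul_ne_zero (sub_ne_zero.mpr hab) (sub_ne_zero.mpr hac)) (sub_ne_zero.mpr had)
  have s0 := (mul_eq_zero.mp e1).resolve_right n1
  have s1 := (mul_eq_zero.mp e2).resolve_right n2
  rw [s0] at s1
  norm_num at s1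

/-- two chords with one common end meet only there -/
theorem three {a b d s u : ℝ} (hab : a ≠ b) (hbd : b ≠ d) (h : sg a b s = sg a d u) : s = 0 := by
  have h1 := congrArg (Q (a * d) (-(a + d)) 1 0) h
  rw [Q_sg, Q_sg] at h1
  have e1 : s * ((b - a) * (b - d)) = 0 := by linear_combination h1
  exact (mul_eq_zero.mp e1).resolve_right
    (mul_ne_zero (sub_ne_zero.mpr hab.symm) (sub_ne_zero.mpr hbd))

/-- a chord contains no other point of the moment curve -/
theorem vert {a b v s : ℝ} (h : sg a b s = mc v) : v = a ∨ v = b := by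
  have h1 := congrArg (Q (a * b) (-(a + b)) 1 0) h
  rw [Q_sg, Q_mc] at h1
  have e1 : (v - a) * (v - b) = 0 := by linear_combination -h1
  rcases mul_eq_zero.mp e1 with h | h
  · left; linarith
  · right; linarith

theorem sg_inj {a b s u : ℝ} (hab : a ≠ b) (h : sg a b s = sg a b u) : s = u := by
  have h1 := congrArg (Q (-a) 1 0 0) h
  rw [Q_sg, Q_sg] at h1
  have e1 : (s - u) * (b - a) = 0 := by linear_combination h1
  have := (mul_eq_zero.mp e1).resolve_right (sub_ne_zero.mpr hab.symm)
  linarith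

theorem mc_inj {a b : ℝ} (h : mc a = mc b) : a = b := by
  have h1 := congrArg (Q 0 1 0 0) h
  rw [Q_mc, Q_mc] at h1
  linarith

/-- a chord as a path -/
noncomputable def seg (a b : ℝ) : Path (mc a) (mc b) where
  toFun := fun t => sg a b t
  continuous_toFun := by
    unfold sg
    exact (AffineMap.lineMap_continuous).comp continuous_subtype_val
  source' := by simp [sg]
  target' := by simp [sg]

theorem seg_apply (a b : ℝ) (t : unitInterval) : seg a b t = sg a b t := rfl

theorem trans_apply (a m b : ℝ) (t : unitInterval) :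
    ((t : ℝ) ≤ 1 / 2 ∧ ((seg a m).trans (seg m b)) t = sg a m (2 * t)) ∨
    (1 / 2 < (t : ℝ) ∧ ((seg a m).trans (seg m b)) t = sg b m (2 - 2 * t)) := by
  rw [Path.trans_apply]
  split_ifs with h
  · exact Or.inl ⟨h, rfl⟩
  · right
    refine ⟨not_le.mp h, ?_⟩
    show sg m b (2 * t - 1) = sg b m (2 - 2 * t)
    simp only [sg, AffineMap.lineMap_apply_module]
    module

theorem trans_mem (a m b : ℝ) (t : unitInterval) : ∃ x s, (x = a ∨ x = b) ∧
    ((seg a m).trans (seg m b)) t = sg x m s := by
  rcases trans_apply a m b t with ⟨_, h⟩ | ⟨_, h⟩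
  · exact ⟨a, _, Or.inl rfl, h⟩
  · exact ⟨b, _, Or.inr rfl, h⟩

theorem trans_inj {a m b : ℝ} (ham : a ≠ m) (hbm : b ≠ m) (hab : a ≠ b) :
    Function.Injective ((seg a m).trans (seg m b)) := by
  intro t u h
  have sw : ∀ x y s, sg x y s = sg y x (1 - s) := by
    intro x y s
    simp only [sg, AffineMap.lineMap_apply_module]
    module
  rcases trans_apply a m b t with ⟨h1, h2⟩ | ⟨h1, h2⟩ <;>
    rcases trans_apply a m b u with ⟨h3, h4⟩ | ⟨h3, h4⟩ <;> rw [h2, h4] at h
  · have := sg_inj ham h
    exact Subtype.ext (by linarith)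
  · exfalso
    rw [sw a m, sw b m] at h
    have := three (a := m) (b := b) (d := a) hbm.symm hab.symm h.symm
    linarith
  · exfalso
    rw [sw a m, sw b m] at h
    have := three (a := m) (b := b) (d := a) hbm.symm hab.symm h
    linarith
  · have := sg_inj hbm h
    exact Subtype.ext (by linarith)

/-- every digraph has a spatial embedding -/
theorem exists_embedding (D : DirectedGraph) : Nonempty (SpatialEmbedding D) := by
  have := D.finite_V
  have := D.finite_E
  obtain ⟨g, hg⟩ := Countable.exists_injective_nat (D.V ⊕ D.E)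
  let v : D.V → ℝ := fun x => g (Sum.inl x)
  let w : D.E → ℝ := fun x => g (Sum.inr x)
  have hv : ∀ x y, v x = v y → x = y := by
    intro x y h
    exact Sum.inl_injective (hg (Nat.cast_injective h))
  have hw : ∀ x y, w x = w y → x = y := by
    intro x y h
    exact Sum.inr_injective (hg (Nat.cast_injective h))
  have hvw : ∀ x y, v x ≠ w y := by
    intro x y h
    have := hg (Nat.cast_injective h)
    simp at this
  refine ⟨⟨fun x => mc (v x), fun x y h => hv x y (mc_inj h),
    fun e => (seg (v (D.src e)) (w e)).trans (seg (w e) (v (D.tgt e))), ?_, ?_, ?_⟩⟩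
  · intro e
    exact trans_inj (hvw _ _) (hvw _ _) (fun h => D.src_ne_tgt e (hv _ _ h))
  · intro e t x h
    obtain ⟨y, s, hy, hs⟩ := trans_mem (v (D.src e)) (w e) (v (D.tgt e)) t
    rw [hs] at h
    rcases vert h with h' | h'
    · rcases hy with hy | hy
      · left; exact hv _ _ (h'.trans hy)
      · right; exact hv _ _ (h'.trans hy)
    · exact absurd h' (hvw _ _)
  · intro e e' hee t t' h
    obtain ⟨y, s, hy, hs⟩ := trans_mem (v (D.src e)) (w e) (v (D.tgt e)) t
    obtain ⟨y', s', hy', hs'⟩ := trans_mem (v (D.src e')) (w e') (v (D.tgt e')) t'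
    obtain ⟨x, rfl⟩ : ∃ x, y = v x := by
      rcases hy with h | h
      · exact ⟨_, h⟩
      · exact ⟨_, h⟩
    obtain ⟨x', rfl⟩ : ∃ x, y' = v x := by
      rcases hy' with h | h
      · exact ⟨_, h⟩
      · exact ⟨_, h⟩
    rw [hs, hs'] at h
    have hww : w e ≠ w e' := fun h' => hee (hw _ _ h')
    by_cases hxx : x = x'
    · subst hxx
      refine ⟨x, ?_⟩
      have := three (hvw x e) hww h
      rw [hs, this, sg_zero]
    · exfalso
      exact four (hvw x e) (fun h' => hxx (hv _ _ h')) (hvw x e') (hvw x' e).symm hww h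

end Pool.Agent.N568.Dg
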