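import Mathlib
import Pool.Agent.N568.Dg.Complete

set_option autoImplicit false
set_option maxHeartbeats 1000000

namespace Pool.Agent.N568.Dg

open Pool.Agent.Helper683.Lk Pool.Agent.N568.Lk Topology Filter

theorem ofList_sum' {V : Type} [Finite V] {A : Type*} [AddCommMonoid A] (ψ : V → V → A) {z : V}
    {l : List V} (hn : l.Nodup) (h : 2 ≤ l.length) (hz : l.head? = some z) :
    ∑ i ∈ Finset.range (ofList l hn h).k,
      ψ ((ofList l hn h).x i) ((ofList l hn h).x (i + 1)) = ls ψ z l := by
  match l, hz with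
  | a :: l', hz =>
    have : a = z := by simpa using hz
    subst this
    exact ofList_sum ψ hn h

/-- the detour through a block -/
def B {V : Type} (u : V) (P : Fin 3 → V) (d : Fin 3 × Fin 3) : List V :=
  u :: P d.1 :: (if d.1 = d.2 then [] else [P d.2])

theorem block_alg {V : Type} {ψ : V → V → ZMod 2} {P : Fin 3 → V}
    (h : ψ (P 0) (P 1) + ψ (P 1) (P 2) + ψ (P 2) (P 0) ≠ 0 ∨ ψ (P 0) (P 2) + ψ (P 2) (P 0) ≠ 0)
    (R : ZMod 2) (u y : V) : ∃ d, R + ls ψ y (B u P d) ≠ 0 := by
  by_contra hcon
  push Not at hcon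
  have two : (2 : ZMod 2) = 0 := rfl
  have h0 := hcon (0, 0)
  have h1 := hcon (1, 1)
  have h2 := hcon (2, 2)
  have h01 := hcon (0, 1)
  have h12 := hcon (1, 2)
  have h20 := hcon (2, 0)
  have h02 := hcon (0, 2)
  simp [B, ls] at h0 h1 h2 h01 h12 h20 h02
  rcases h with h | h
  · apply h
    linear_combination h01 + h12 + h20 - h0 - h1 - h2
  · apply h
    linear_combination h02 + h20 - h0 - h2

section
variable {m : ℕ} {f : SpatialEmbedding (complete (Fin m × Fin 7))} (S : Scale f)

/-- the vertices of the block `i` -/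
def gi (i : Fin m) (a : Fin 6) : Fin m × Fin 7 := (i, a.castSucc)

theorem gi_inj (i : Fin m) : Function.Injective (gi i) := by
  intro a b h
  have := congrArg Prod.snd h
  exact Fin.castSucc_injective _ this

/-- the parity of the pairing of an edge with a closed list -/
noncomputable def Lam (z : Fin m × Fin 7) (l : List (Fin m × Fin 7)) (p q : Fin m × Fin 7) : ZMod 2 :=
  ls (fun u v => ((tt S p q u v : ℤ) : ZMod 2)) z l

theorem block (i : Fin m) : ∃ (A : Fin 3 → Fin 6) (r : Fin 6) (L : List (Fin 6)),
    Function.Injective A ∧ (r :: L).Nodup ∧ 2 ≤ (r :: L).length ∧ (∀ j, A j ∉ r :: L) ∧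
    (Lam S (gi i r) ((r :: L).map (gi i)) (gi i (A 0)) (gi i (A 1)) +
      Lam S (gi i r) ((r :: L).map (gi i)) (gi i (A 1)) (gi i (A 2)) +
      Lam S (gi i r) ((r :: L).map (gi i)) (gi i (A 2)) (gi i (A 0)) ≠ 0 ∨
     Lam S (gi i r) ((r :: L).map (gi i)) (gi i (A 0)) (gi i (A 2)) +
      Lam S (gi i r) ((r :: L).map (gi i)) (gi i (A 2)) (gi i (A 0)) ≠ 0) := by
  obtain ⟨a, b, c, x, y, z, hn, h9⟩ := exists_nine (k6 S (gi i) (gi_inj i))
  have hd := directed h9
  simp only [List.nodup_cons, List.mem_cons, List.not_mem_nil, or_false, not_or, not_false_eq_true,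
    List.nodup_nil, and_true] at hn
  obtain ⟨⟨ab, ac, ax, ay, az⟩, ⟨bc, bx, bY, bz⟩, ⟨cx, cy, cz⟩, ⟨xy, xz⟩, yz⟩ := hn
  have hA : Function.Injective ![a, b, c] := by
    intro p q h
    fin_cases p <;> fin_cases q <;> simp at h ⊢ <;>
      first
      | exact ab h
      | exact ac h
      | exact bc h
      | exact ab h.symm
      | exact ac h.symm
      | exact bc h.symm
  rcases hd with h | h | h | h
  · refine ⟨![a, b, c], x, [y, z], hA, by simp [xy, xz, yz], by simp, ?_, Or.inl ?_⟩
    · intro j
      fin_cases j <;> simp [ax, ay, az, bx, bY, bz, cx, cy, cz]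
    · intro h0
      apply h
      simp only [Lam, List.map_cons, List.map_nil, ls, Matrix.cons_val_zero, Matrix.cons_val_one,
        Matrix.cons_val] at h0
      linear_combination h0
  · refine ⟨![a, b, c], x, [y, z], hA, by simp [xy, xz, yz], by simp, ?_, Or.inr ?_⟩
    · intro j
      fin_cases j <;> simp [ax, ay, az, bx, bY, bz, cx, cy, cz]
    · intro h0
      apply h
      simp only [Lam, List.map_cons, List.map_nil, ls, Matrix.cons_val_zero, Matrix.cons_val_one,
        Matrix.cons_val] at h0
      linear_combination h0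
  · refine ⟨![a, b, c], x, [z], hA, by simp [xz], by simp, ?_, Or.inl ?_⟩
    · intro j
      fin_cases j <;> simp [ax, az, bx, bz, cx, cz]
    · intro h0
      apply h
      simp only [Lam, List.map_cons, List.map_nil, ls, Matrix.cons_val_zero, Matrix.cons_val_one,
        Matrix.cons_val] at h0
      linear_combination h0
  · refine ⟨![a, b, c], x, [z], hA, by simp [xz], by simp, ?_, Or.inr ?_⟩
    · intro j
      fin_cases j <;> simp [ax, az, bx, bz, cx, cz]
    · intro h0
      apply h
      simp only [Lam, List.map_cons, List.map_nil, ls, Matrix.cons_val_zero, Matrix.cons_val_one,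
        Matrix.cons_val] at h0
      linear_combination h0

end

section
variable {m : ℕ}

/-- the vertices of the big cycle -/
def W (A : Fin m → Fin 3 → Fin 6) (c : Fin m → Fin 3 × Fin 3) : List (Fin m × Fin 7) :=
  (List.finRange m).flatMap fun i => B (i, 6) (fun j => gi i (A i j)) (c i)

theorem mem_B {V : Type} {u : V} {P : Fin 3 → V} {d : Fin 3 × Fin 3} {v : V} (h : v ∈ B u P d) :
    v = u ∨ ∃ j, v = P j := by
  unfold B at h
  rw [List.mem_cons, List.mem_cons] at h
  rcases h with h | h | h
  · exact Or.inl h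
  · exact Or.inr ⟨_, h⟩
  · split_ifs at h
    · simp at h
    · rw [List.mem_singleton] at h
      exact Or.inr ⟨_, h⟩

theorem mem_W {A : Fin m → Fin 3 → Fin 6} {c : Fin m → Fin 3 × Fin 3} {v : Fin m × Fin 7}
    (h : v ∈ W A c) : v = (v.1, 6) ∨ ∃ j, v = gi v.1 (A v.1 j) := by
  unfold W at h
  rw [List.mem_flatMap] at h
  obtain ⟨i, _, h⟩ := h
  rcases mem_B h with rfl | ⟨j, rfl⟩
  · exact Or.inl rfl
  · exact Or.inr ⟨j, rfl⟩

theorem gi_ne (i j : Fin m) (a : Fin 6) : gi i a ≠ (j, 6) := by
  intro h
  have := congrArg (fun p => (Prod.snd p).val) h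
  simp only [gi, Fin.val_castSucc] at this
  have h2 := a.2
  have h3 : ((6 : Fin 7) : ℕ) = 6 := rfl
  omega

theorem W_nodup {A : Fin m → Fin 3 → Fin 6} (hA : ∀ i, Function.Injective (A i))
    (c : Fin m → Fin 3 × Fin 3) : (W A c).Nodup := by
  unfold W
  rw [List.nodup_flatMap]
  refine ⟨?_, ?_⟩
  · intro i _
    unfold B
    rw [List.nodup_cons, List.nodup_cons]
    refine ⟨?_, ?_, ?_⟩
    · intro h
      rw [List.mem_cons] at h
      rcases h with h | h
      · exact gi_ne _ _ _ h.symm
      · split_ifs at h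
        · simp at h
        · rw [List.mem_singleton] at h
          exact gi_ne _ _ _ h.symm
    · split_ifs with h
      · simp
      · intro h'
        rw [List.mem_singleton] at h'
        exact h (hA i (gi_inj i h'))
    · split_ifs <;> simp
  · have := List.nodup_finRange m
    refine List.Pairwise.imp ?_ this
    intro i j hij
    show List.Disjoint _ _
    intro v h1 h2
    have e1 : v.1 = i := by rcases mem_B h1 with rfl | ⟨j, rfl⟩ <;> rfl
    have e2 : v.1 = j := by rcases mem_B h2 with rfl | ⟨j, rfl⟩ <;> rfl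
    exact hij (e1.symm.trans e2)

theorem W_separate (A : Fin m → Fin 3 → Fin 6) (ψ : Fin m × Fin 7 → Fin m × Fin 7 → ZMod 2)
    (z : Fin m × Fin 7) (j : Fin m) (c : Fin m → Fin 3 × Fin 3) : ∃ (R : ZMod 2) (y : Fin m × Fin 7),
      ∀ d, ls ψ z (W A (Function.update c j d)) = R + ls ψ y (B (j, 6) (fun k => gi j (A j k)) d) := by
  obtain ⟨pre, post, hpp⟩ := List.append_of_mem (List.mem_finRange j)
  have hnd := List.nodup_finRange m
  rw [hpp] at hnd
  have hpre : j ∉ pre := by
    intro h
    exact (List.nodup_append.mp hnd).2.2 j h j (by simp) rfl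
  have hpost : j ∉ post := (List.nodup_cons.mp (List.nodup_append.mp hnd).2.1).1
  set X := pre.flatMap fun i => B (i, 6) (fun j => gi i (A i j)) (c i) with hX
  set Y := post.flatMap fun i => B (i, 6) (fun j => gi i (A i j)) (c i) with hY
  have hW : ∀ d, W A (Function.update c j d) =
      X ++ (j, 6) :: ((B (j, 6) (fun k => gi j (A j k)) d).tail ++ Y) := by
    intro d
    unfold W
    rw [hpp, List.flatMap_append, List.flatMap_cons, Function.update_self]
    congr 1
    · apply List.flatMap_congr
      intro i hi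
      have hij : i ≠ j := by rintro rfl; exact hpre hi
      rw [Function.update_of_ne hij]
    · have : (post.flatMap fun i => B (i, 6) (fun j => gi i (A i j)) (Function.update c j d i)) = Y := by
        apply List.flatMap_congr
        intro i hi
        have hij : i ≠ j := by rintro rfl; exact hpost hi
        rw [Function.update_of_ne hij]
      rw [this]
      rfl
  cases hYc : Y with
  | nil =>
    refine ⟨ls ψ (j, 6) X, z, fun d => ?_⟩
    rw [hW, ls_append, hYc, List.append_nil]
    rfl
  | cons y Y' =>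
    refine ⟨ls ψ (j, 6) X + ls ψ z (y :: Y'), y, fun d => ?_⟩
    rw [hW, ls_append, hYc]
    have e : (j, (6 : Fin 7)) :: ((B (j, 6) (fun k => gi j (A j k)) d).tail ++ y :: Y') =
        B (j, 6) (fun k => gi j (A j k)) d ++ y :: Y' := rfl
    rw [e, ls_append]
    ring

end

open Classical in
/-- averaging over the detours -/
theorem exists_choice {m s : ℕ} (hs : 9 * s ≤ m) (F : Fin m → (Fin m → Fin 3 × Fin 3) → ZMod 2)
    (hF : ∀ j c, ∃ d, F j (Function.update c j d) ≠ 0) :
    ∃ c, s ≤ (Finset.univ.filter fun j => F j c ≠ 0).card := by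
  classical
  by_contra hcon
  push Not at hcon
  have h1 : ∀ j : Fin m, Fintype.card (Fin m → Fin 3 × Fin 3) ≤
      9 * (Finset.univ.filter fun c => F j c ≠ 0).card := by
    intro j
    choose d hd using hF j
    refine Finset.card_le_mul_card_image_of_maps_to (s := Finset.univ)
      (f := fun c => Function.update c j (d c)) (n := 9) ?_ ?_
    · intro c _
      simp only [Finset.mem_filter, Finset.mem_univ, true_and]
      exact hd c
    · intro b _
      refine le_trans (Finset.card_le_card_of_injOn (t := (Finset.univ : Finset (Fin 3 × Fin 3)))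
        (fun c => c j) (fun _ _ => Finset.mem_univ _) ?_) (by simp)
      intro c hc c' hc' hcc
      simp only [Finset.coe_filter, Finset.mem_univ, true_and, Set.mem_ofPred_eq] at hc hc'
      funext i
      by_cases hi : i = j
      · subst hi; exact hcc
      · have e1 := congrFun hc i
        have e2 := congrFun hc' i
        rw [Function.update_of_ne hi] at e1 e2
        rw [e1, e2]
  have h2 : ∑ j : Fin m, (Finset.univ.filter fun c => F j c ≠ 0).card =
      ∑ c : Fin m → Fin 3 × Fin 3, (Finset.univ.filter fun j => F j c ≠ 0).card := by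
    simp only [Finset.card_filter]
    exact Finset.sum_comm
  have h3 : m * Fintype.card (Fin m → Fin 3 × Fin 3) ≤
      9 * ∑ j : Fin m, (Finset.univ.filter fun c => F j c ≠ 0).card := by
    rw [Finset.mul_sum]
    calc m * Fintype.card (Fin m → Fin 3 × Fin 3)
        = ∑ _j : Fin m, Fintype.card (Fin m → Fin 3 × Fin 3) := by simp
      _ ≤ _ := Finset.sum_le_sum fun j _ => h1 j
  have h4 : ∑ c : Fin m → Fin 3 × Fin 3, (9 * (Finset.univ.filter fun j => F j c ≠ 0).card + 9) ≤
      ∑ c : Fin m → Fin 3 × Fin 3, 9 * s := by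
    apply Finset.sum_le_sum
    intro c _
    have := hcon c
    omega
  rw [Finset.sum_add_distrib, ← Finset.mul_sum, ← h2] at h4
  simp only [Finset.sum_const, Finset.card_univ, smul_eq_mul] at h4
  have hpos : 0 < Fintype.card (Fin m → Fin 3 × Fin 3) := Fintype.card_pos
  nlinarith

theorem image_comp {D : DirectedGraph} {f : SpatialEmbedding D} (C : OrientedCycle D) {O : Set R3}
    (h : C.image f ⊆ O) {a : R3} (ha : a ∈ C.image f) :
    connectedComponentIn O a = connectedComponentIn O (f.pos (C.wk.x 0)) := by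
  rw [← range_curve] at h ha
  have h1 := (isPreconnected_range_path (C.curve f)).subset_connectedComponentIn ha h
  exact connectedComponentIn_eq (h1 ⟨0, (C.curve f).source⟩)

/-- cycles that have nonzero linking number with a common cycle form a nonsplit link -/
theorem nonsplit_of {D : DirectedGraph} {f : SpatialEmbedding D} {s : ℕ} {C : Fin (s + 1) → OrientedCycle D}
    (h : ∀ i : Fin s, ∃ k : ℤ, k ≠ 0 ∧ IsLinkingNumber ((C 0).curve f) ((C i.succ).curve f) k) :
    Nonsplit fun i => (C i).image f := by
  rintro ⟨g, hg, hinj, hdis, i, j, a, ha, b, hb, hab⟩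
  have hO : ∀ i, (C i).image f ⊆ (Set.range g)ᶜ := fun i p hp h =>
    Set.disjoint_left.mp (hdis i) hp h
  have key : ∀ i, connectedComponentIn (Set.range g)ᶜ (f.pos ((C i).wk.x 0)) =
      connectedComponentIn (Set.range g)ᶜ (f.pos ((C 0).wk.x 0)) := by
    intro i
    refine Fin.cases rfl (fun i => ?_) i
    obtain ⟨k, hk, hl⟩ := h i
    by_contra hne
    apply hk
    have d0 : Disjoint ((C 0).image f) (Set.range g) := hdis 0
    have d1 : Disjoint ((C i.succ).image f) (Set.range g) := hdis i.succ
    rw [← range_curve] at d0 d1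
    exact separated hl g hg hinj d0 d1 (fun h' => hne h'.symm)
  apply hab
  rw [image_comp (C i) (hO i) ha, image_comp (C j) (hO j) hb, key i, key j]

/-- The complete symmetric digraph on the vertex set `Fin m × Fin 7` is intrinsically
`(s + 1)`-linked if `m ≥ 9 s` and `m > 0`. -/
theorem main {m s : ℕ} (hs : 9 * s ≤ m) (hm : 0 < m) :
    IntrinsicallyLinked (s + 1) (complete (Fin m × Fin 7)) := by
  intro f
  obtain ⟨S⟩ := exists_scale f
  choose A r L hA hn hlen hAL hodd using block S
  let z : Fin m × Fin 7 := (⟨0, hm⟩, 6)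
  let F : Fin m → (Fin m → Fin 3 × Fin 3) → ZMod 2 := fun j c =>
    ls (Lam S (gi j (r j)) ((r j :: L j).map (gi j))) z (W A c)
  obtain ⟨c, hc⟩ := exists_choice hs F (by
    intro j c
    obtain ⟨R, y, h⟩ := W_separate A (Lam S (gi j (r j)) ((r j :: L j).map (gi j))) z j c
    obtain ⟨d, hd⟩ := block_alg (ψ := Lam S (gi j (r j)) ((r j :: L j).map (gi j)))
      (P := fun k => gi j (A j k)) (hodd j) R (j, 6) y
    exact ⟨d, by simp only [F]; rw [h d]; exact hd⟩)
  obtain ⟨t, ht, htc⟩ := Finset.exists_subset_card_eq hc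
  let ι := t.orderEmbOfFin htc
  have hι : ∀ i, F (ι i) c ≠ 0 := by
    intro i
    have := ht (t.orderEmbOfFin_mem htc i)
    simpa using this
  have hhead : (W A c).head? = some z := by
    obtain ⟨m', rfl⟩ : ∃ m', m = m' + 1 := ⟨m - 1, by omega⟩
    unfold W
    rw [List.finRange_succ]
    rfl
  have hWlen : 2 ≤ (W A c).length := by
    obtain ⟨m', rfl⟩ : ∃ m', m = m' + 1 := ⟨m - 1, by omega⟩
    unfold W
    rw [List.finRange_succ, List.flatMap_cons, List.length_append]
    unfold B
    simp only [List.length_cons]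
    omega
  let C0 := ofList (W A c) (W_nodup hA c) hWlen
  let CL : Fin m → OrientedCycle (complete (Fin m × Fin 7)) := fun j =>
    ofList ((r j :: L j).map (gi j)) ((hn j).map (gi_inj j)) (by rw [List.length_map]; exact hlen j)
  have memL : ∀ j i, ∃ a ∈ r j :: L j, (CL j).x i = gi j a := by
    intro j i
    have := mem_ofList ((hn j).map (gi_inj j)) (by rw [List.length_map]; exact hlen j) i
    obtain ⟨a, ha, h⟩ := List.mem_map.mp this
    exact ⟨a, ha, h.symm⟩
  have d0 : ∀ j, VertexDisjoint C0 (CL j) := by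
    intro j a _ b _ he
    obtain ⟨p, hp, h1⟩ := memL j b
    have h2 := mem_ofList (W_nodup hA c) hWlen a
    have h3 : C0.x a = gi j p := he.trans h1
    change (ofList (W A c) (W_nodup hA c) hWlen).x a = gi j p at h3
    rw [h3] at h2
    rcases mem_W h2 with h4 | ⟨k, h4⟩
    · exact gi_ne _ _ _ h4
    · have h5 : p = A j k := gi_inj j h4
      exact hAL j k (h5 ▸ hp)
  have dL : ∀ j k, j ≠ k → VertexDisjoint (CL j) (CL k) := by
    intro j k hjk a _ b _ he
    obtain ⟨p, _, h1⟩ := memL j a
    obtain ⟨q, _, h2⟩ := memL k b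
    rw [h1, h2] at he
    exact hjk (congrArg Prod.fst he)
  refine ⟨Fin.cons C0 (fun i => CL (ι i)), ?_, ?_⟩
  · intro i j
    refine Fin.cases ?_ (fun i => ?_) i <;> refine Fin.cases ?_ (fun j => ?_) j
    · intro h; exact absurd rfl h
    · intro _
      rw [Fin.cons_zero, Fin.cons_succ]
      exact d0 _
    · intro _
      rw [Fin.cons_zero, Fin.cons_succ]
      intro a ha b hb he
      exact d0 _ b hb a ha he.symm
    · intro h
      rw [Fin.cons_succ, Fin.cons_succ]
      apply dL
      intro h'
      exact h (congrArg Fin.succ (ι.injective h'))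
  · apply nonsplit_of
    intro i
    refine ⟨_, ?_, by rw [Fin.cons_zero, Fin.cons_succ]; exact isLk S (d0 (ι i))⟩
    intro h0
    apply hι i
    have h1 := congrArg (Int.cast : ℤ → ZMod 2) h0
    push_cast at h1
    rw [← h1]
    show ls (Lam S (gi (ι i) (r (ι i))) ((r (ι i) :: L (ι i)).map (gi (ι i)))) z (W A c) = _
    rw [← ofList_sum' _ (W_nodup hA c) hWlen hhead]
    apply Finset.sum_congr rfl
    intro a _
    show ls _ (gi (ι i) (r (ι i))) ((r (ι i) :: L (ι i)).map (gi (ι i))) = _
    rw [← ofList_sum' _ ((hn (ι i)).map (gi_inj (ι i)))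
      (by rw [List.length_map]; exact hlen (ι i)) (by rfl)]
    apply Finset.sum_congr rfl
    intro b _
    rw [T_tt]
    rfl

end Pool.Agent.N568.Dg
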